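import Mathlib
import Pool.Agent.Lib.helper11.OrthAdd

namespace Pool.Agent.Results.MP_f32e1d_an.NoSup

open Pool.Agent.Lib.helper11.OrthAdd

variable {E F : Type} [AddCommGroup E] [Lattice E] [AddCommGroup F] [Lattice F]

/-- orthogonally additive map -/
def OA (T : E → F) : Prop := ∀ x y, |x| ⊓ |y| = 0 → T (x + y) = T x + T y

/-- `R` is the least upper bound of `S` and `T` among the orthogonally additive maps, for the
pointwise order -/
def IsJoin (S T R : E → F) : Prop :=
  OA R ∧ S ≤ R ∧ T ≤ R ∧ ∀ P, OA P → S ≤ P → T ≤ P → R ≤ P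

/-- the set of `S u + T v` over disjoint decompositions `x = u + v` -/
def Dec (S T : E → F) (x : E) : Set F := {z | ∃ u v, |u| ⊓ |v| = 0 ∧ x = u + v ∧ z = S u + T v}

theorem result : ∃ (X : Type) (_ : TopologicalSpace X) (S T R : (ℕ → ℝ) → C(X, ℝ)) (x : ℕ → ℝ),
    OA S ∧ OA T ∧ IsJoin S T R ∧ ¬ ∃ s, IsLUB (Dec S T x) s := by
  obtain ⟨S, R, h1, h2, h3, h4, ⟨w, h5, h6⟩, h7⟩ := core'
  have hj : IsJoin S 0 R := ⟨h2, h3, h4, fun P a b c => h7 P (fun x y h => (a x y h).ge)
    fun x y h => by rw [a x y h]; exact le_add_of_le_of_nonneg (b x) (c y)⟩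
  by_contra hc
  have : ∀ x, ∃ s, IsLUB (Dec S 0 x) s := fun x => by_contra fun h =>
    hc ⟨Tr, inferInstance, S, 0, R, x, h1, fun _ _ _ => by simp, hj, h⟩
  choose L hL using this
  have up : ∀ x y, |x| ⊓ |y| = 0 → S x ≤ L (x + y) := fun x y h =>
    (hL _).1 ⟨x, y, h, rfl, by simp⟩
  refine h6 ((h7 L (fun x y h => ?_) up 1).trans ((hL 1).2 ?_))
  · rw [← le_sub_iff_add_le]
    refine (hL x).2 ?_
    rintro _ ⟨u, v, a, rfl, rfl⟩
    rw [le_sub_comm]
    refine (hL y).2 ?_
    rintro _ ⟨u', v', b, rfl, rfl⟩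
    have d := disj.1 h
    rw [supp a, supp b, Set.disjoint_union_left, Set.disjoint_union_right,
      Set.disjoint_union_right] at d
    have e1 := disj.2 d.1.1
    have e2 := disj.2 d.2.2
    have := up (u + u') (v + v') (disj.2 (by
      rw [supp e1, supp e2, Set.disjoint_union_left, Set.disjoint_union_right,
        Set.disjoint_union_right]
      exact ⟨⟨disj.1 a, d.1.2⟩, d.2.1.symm, disj.1 b⟩))
    rw [h1 _ _ e1, add_add_add_comm] at this
    simpa [le_sub_iff_add_le, add_comm] using this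
  · rintro _ ⟨u, v, -, -, rfl⟩
    simpa using h5 u

end Pool.Agent.Results.MP_f32e1d_an.NoSup
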